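import Pool.Agent.helper52.FS.SpecP

/-!
# Row fs:FEJ (MP_07c750_an, PROJECT FS): the Fejér kernel of period 4
-/

open MeasureTheory Set

set_option autoImplicit false

namespace Pool.Agent.FS

noncomputable section

/-- the sum of the first `D` exponentials -/
def FEJ_S (D : ℕ) (t : ℝ) : ℂ := ∑ m ∈ Finset.range D, ee (Real.pi * m * t / 2)

/-- the Fejér kernel -/
def FEJ_F (D : ℕ) (t : ℝ) : ℝ := ‖FEJ_S D t‖ ^ 2 / D

theorem FEJ_ee_add (a b : ℝ) : ee (a + b) = ee a * ee b := by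
  unfold ee
  rw [← Complex.exp_add]
  congr 1
  push_cast
  ring

theorem FEJ_ee_norm (a : ℝ) : ‖ee a‖ = 1 := by
  unfold ee
  exact Complex.norm_exp_ofReal_mul_I a

theorem FEJ_ee_conj (a : ℝ) : (starRingEnd ℂ) (ee a) = ee (-a) := by
  unfold ee
  rw [← Complex.exp_conj]
  congr 1
  simp

theorem FEJ_ee_cont : Continuous ee := by
  unfold ee
  fun_prop

theorem FEJ_S_cont (D : ℕ) : Continuous (FEJ_S D) := by
  unfold FEJ_S
  refine continuous_finsetSum _ fun m _ => ?_
  exact FEJ_ee_cont.comp (by fun_prop)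

theorem FEJ_F_cont (D : ℕ) : Continuous (FEJ_F D) := by
  unfold FEJ_F
  exact ((FEJ_S_cont D).norm.pow 2).div_const _

theorem FEJ_F_nn (D : ℕ) (t : ℝ) : 0 ≤ FEJ_F D t := by
  unfold FEJ_F
  positivity

theorem FEJ_geo (D : ℕ) (t : ℝ) : FEJ_S D t * (ee (Real.pi * t / 2) - 1) = ee (Real.pi * t / 2) ^ D - 1 := by
  have h : FEJ_S D t = ∑ m ∈ Finset.range D, ee (Real.pi * t / 2) ^ m := by
    unfold FEJ_S
    refine Finset.sum_congr rfl fun m _ => ?_
    unfold ee
    rw [← Complex.exp_nat_mul]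
    congr 1
    push_cast
    ring
  rw [h]
  exact geom_sum_mul _ _

theorem FEJ_bd (D : ℕ) (hD : 1 ≤ D) (t : ℝ) (h0 : t ≠ 0) (h2 : |t| ≤ 2) : FEJ_F D t ≤ 4 / D * (t ^ 2)⁻¹ := by
  have hpi := Real.pi_pos
  have h1 : |t| ≤ ‖ee (Real.pi * t / 2) - 1‖ := by
    have e1 : ‖ee (Real.pi * t / 2) - 1‖ = |2 * Real.sin (Real.pi * t / 2 / 2)| := by
      have := Complex.norm_exp_I_mul_ofReal_sub_one (Real.pi * t / 2)
      unfold ee
      rw [mul_comm, this, Real.norm_eq_abs]
    have e3 : |Real.pi * t / 2 / 2| = Real.pi * |t| / 4 := by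
      rw [abs_div, abs_div, abs_mul, abs_of_pos Real.pi_pos, abs_of_pos (by norm_num : (0 : ℝ) < 2)]
      ring
    have e2 := Real.mul_abs_le_abs_sin (x := Real.pi * t / 2 / 2) (by rw [e3]; nlinarith)
    rw [e3] at e2
    rw [e1, abs_mul, abs_of_pos (by norm_num : (0 : ℝ) < 2)]
    have e4 : 2 / Real.pi * (Real.pi * |t| / 4) = |t| / 2 := by
      field_simp
      ring
    rw [e4] at e2
    linarith
  have ht : 0 < |t| := abs_pos.mpr h0
  have h3 : ‖FEJ_S D t‖ * |t| ≤ 2 := by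
    calc ‖FEJ_S D t‖ * |t| ≤ ‖FEJ_S D t‖ * ‖ee (Real.pi * t / 2) - 1‖ := by gcongr
      _ = ‖ee (Real.pi * t / 2) ^ D - 1‖ := by rw [← norm_mul, FEJ_geo]
      _ ≤ ‖ee (Real.pi * t / 2) ^ D‖ + ‖(1 : ℂ)‖ := norm_sub_le _ _
      _ = 2 := by rw [norm_pow, FEJ_ee_norm]; norm_num
  have h4 : ‖FEJ_S D t‖ ^ 2 * t ^ 2 ≤ 4 := by
    have : (‖FEJ_S D t‖ * |t|) ^ 2 ≤ 2 ^ 2 := by
      gcongr
    rw [mul_pow, sq_abs] at this
    linarith
  have hDr : (0 : ℝ) < D := by exact_mod_cast hD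
  have ht2 : 0 < t ^ 2 := by positivity
  unfold FEJ_F
  rw [div_mul_eq_mul_div]
  apply div_le_div_of_nonneg_right _ hDr.le
  rw [← div_eq_mul_inv, le_div_iff₀ ht2]
  exact h4

theorem FEJ_exp (D : ℕ) (t : ℝ) : ((FEJ_F D t : ℝ) : ℂ) = ∑ x ∈ Finset.range D ×ˢ Finset.range D, (1 / (D : ℂ)) * ee (Real.pi * (((x.1 : ℤ) - (x.2 : ℤ) : ℤ) : ℝ) * t / 2) := by
  have h1 : ((‖FEJ_S D t‖ ^ 2 : ℝ) : ℂ) = ∑ x ∈ Finset.range D ×ˢ Finset.range D, ee (Real.pi * (((x.1 : ℤ) - (x.2 : ℤ) : ℤ) : ℝ) * t / 2) := by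
    have : ((‖FEJ_S D t‖ ^ 2 : ℝ) : ℂ) = FEJ_S D t * (starRingEnd ℂ) (FEJ_S D t) := by
      rw [Complex.mul_conj, Complex.normSq_eq_norm_sq]
    rw [this]
    unfold FEJ_S
    rw [map_sum, Finset.sum_mul_sum, Finset.sum_product]
    refine Finset.sum_congr rfl fun m _ => Finset.sum_congr rfl fun n _ => ?_
    rw [FEJ_ee_conj, ← FEJ_ee_add]
    congr 1
    push_cast
    ring
  unfold FEJ_F
  rw [Complex.ofReal_div, h1, Finset.sum_div]
  refine Finset.sum_congr rfl fun x _ => ?_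
  push_cast
  ring

theorem FEJ_ee_int (k : ℤ) : ee (Real.pi * k * 2) = 1 := by
  unfold ee
  have := Complex.exp_int_mul_two_pi_mul_I k
  rw [← this]
  congr 1
  push_cast
  ring

theorem FEJ_int_ee (k : ℤ) : ∫ t in (-2 : ℝ)..2, ee (Real.pi * k * t / 2) = if k = 0 then 4 else 0 := by
  split_ifs with hk
  · subst hk
    have : ∀ t : ℝ, ee (Real.pi * ((0 : ℤ) : ℝ) * t / 2) = 1 := by
      intro t
      unfold ee
      simp
    simp_rw [this]
    rw [intervalIntegral.integral_const]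
    norm_num
  · have hc : ((Real.pi * k / 2 : ℝ) : ℂ) * Complex.I ≠ 0 := by
      apply mul_ne_zero _ Complex.I_ne_zero
      have : Real.pi * k / 2 ≠ 0 := by
        have h1 : (k : ℝ) ≠ 0 := by exact_mod_cast hk
        have := Real.pi_ne_zero
        positivity
      exact_mod_cast this
    have h1 : ∀ t : ℝ, ee (Real.pi * k * t / 2) = Complex.exp (((Real.pi * k / 2 : ℝ) : ℂ) * Complex.I * t) := by
      intro t
      unfold ee
      congr 1
      push_cast
      ring
    simp_rw [h1]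
    rw [integral_exp_mul_complex hc, div_eq_zero_iff]
    left
    have h2 : Complex.exp (((Real.pi * k / 2 : ℝ) : ℂ) * Complex.I * ((2 : ℝ) : ℂ)) = Complex.exp (((Real.pi * k / 2 : ℝ) : ℂ) * Complex.I * ((-2 : ℝ) : ℂ)) := by
      have h3 : ((Real.pi * k / 2 : ℝ) : ℂ) * Complex.I * ((2 : ℝ) : ℂ) = ((Real.pi * k / 2 : ℝ) : ℂ) * Complex.I * ((-2 : ℝ) : ℂ) + ((Real.pi * k * 2 : ℝ) : ℂ) * Complex.I := by
        push_cast
        ring
      rw [h3, Complex.exp_add]
      have h4 := FEJ_ee_int k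
      unfold ee at h4
      rw [h4, mul_one]
    rw [h2, sub_self]

theorem FEJ_int_F (D : ℕ) (hD : 1 ≤ D) : ∫ t in (-2 : ℝ)..2, FEJ_F D t = 4 := by
  have hDc : (D : ℂ) ≠ 0 := by
    have : D ≠ 0 := by omega
    exact_mod_cast this
  have h : ((∫ t in (-2 : ℝ)..2, FEJ_F D t : ℝ) : ℂ) = 4 := by
    rw [← intervalIntegral.integral_ofReal]
    simp_rw [FEJ_exp]
    rw [intervalIntegral.integral_finsetSum]
    · have h1 : ∀ x ∈ Finset.range D ×ˢ Finset.range D, ∫ t in (-2 : ℝ)..2, (1 / (D : ℂ)) * ee (Real.pi * (((x.1 : ℤ) - (x.2 : ℤ) : ℤ) : ℝ) * t / 2) = if x.1 = x.2 then 4 / (D : ℂ) else 0 := by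
        intro x _
        rw [intervalIntegral.integral_const_mul, FEJ_int_ee]
        by_cases hx : x.1 = x.2
        · rw [if_pos (by omega), if_pos hx]
          ring
        · rw [if_neg (by omega), if_neg hx, mul_zero]
      rw [Finset.sum_congr rfl h1, Finset.sum_product]
      have h2 : ∀ m ∈ Finset.range D, ∑ n ∈ Finset.range D, (if m = n then 4 / (D : ℂ) else 0) = 4 / (D : ℂ) := by
        intro m hm
        rw [Finset.sum_ite_eq, if_pos hm]
      rw [Finset.sum_congr rfl h2, Finset.sum_const, Finset.card_range, nsmul_eq_mul]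
      field_simp
    · intro x _
      apply Continuous.intervalIntegrable
      exact continuous_const.mul (FEJ_ee_cont.comp (by fun_prop))
  exact_mod_cast h

theorem FEJ_side (D : ℕ) (d : ℝ) (hd : 0 < d) (hd2 : d ≤ 2) : ∫ t in d..2, 4 / (D : ℝ) * (t ^ 2)⁻¹ = 4 / D * (1 / d - 1 / 2) := by
  rw [intervalIntegral.integral_const_mul]
  congr 1
  have h : ∀ x ∈ Set.uIcc d 2, HasDerivAt (fun t : ℝ => -t⁻¹) ((x ^ 2)⁻¹) x := by
    intro x hx
    rw [Set.uIcc_of_le hd2] at hx
    have hx0 : x ≠ 0 := by linarith [hx.1]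
    have := (hasDerivAt_inv hx0).fun_neg
    rw [neg_neg] at this
    exact this
  rw [intervalIntegral.integral_eq_sub_of_hasDerivAt h]
  · ring
  · apply ContinuousOn.intervalIntegrable
    intro x hx
    rw [Set.uIcc_of_le hd2] at hx
    have hx0 : x ≠ 0 := by linarith [hx.1]
    exact (ContinuousAt.inv₀ (by fun_prop) (by positivity)).continuousWithinAt

theorem FEJ_ii (D : ℕ) (g : ℝ → ℝ) (hg : Measurable g) (h0 : ∀ t, 0 ≤ g t) (h1 : ∀ t, g t ≤ 1) (a b : ℝ) : IntervalIntegrable (fun t => g t * FEJ_F D t) volume a b := by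
  have hF : IntervalIntegrable (FEJ_F D) volume a b := (FEJ_F_cont D).intervalIntegrable a b
  refine hF.mono_fun ((hg.mul (FEJ_F_cont D).measurable).aestronglyMeasurable) ?_
  refine Filter.Eventually.of_forall fun t => ?_
  have h2 := FEJ_F_nn D t
  simp only [Real.norm_eq_abs]
  rw [abs_mul, abs_of_nonneg (h0 t), abs_of_nonneg h2]
  nlinarith [h1 t]

theorem FEJ_tail (D : ℕ) (hD : 1 ≤ D) (g : ℝ → ℝ) (hg : Measurable g) (h0 : ∀ t, 0 ≤ g t) (h1 : ∀ t, g t ≤ 1) (d : ℝ) (hd : 0 < d) (hd2 : d ≤ 2) (hz : ∀ t, |t| ≤ d → g t = 0) :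
    ∫ t in (-2 : ℝ)..2, g t * FEJ_F D t ≤ 8 / (D * d) := by
  have hDr : (0 : ℝ) < D := by exact_mod_cast hD
  have hii := FEJ_ii D g hg h0 h1
  rw [← intervalIntegral.integral_add_adjacent_intervals (hii (-2) (-d)) (hii (-d) 2), ← intervalIntegral.integral_add_adjacent_intervals (hii (-d) d) (hii d 2)]
  have e2 : ∫ t in (-d)..d, g t * FEJ_F D t = 0 := by
    have : ∀ t ∈ Set.uIcc (-d) d, g t * FEJ_F D t = (fun _ => (0 : ℝ)) t := by
      intro t ht
      rw [Set.uIcc_of_le (by linarith)] at ht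
      simp only
      rw [hz t (abs_le.mpr ht), zero_mul]
    rw [intervalIntegral.integral_congr this]
    simp
  have hci : IntervalIntegrable (fun t : ℝ => 4 / (D : ℝ) * (t ^ 2)⁻¹) volume d 2 := by
    apply ContinuousOn.intervalIntegrable
    intro x hx
    rw [Set.uIcc_of_le hd2] at hx
    have hx0 : x ≠ 0 := by linarith [hx.1]
    exact (continuousAt_const.mul (ContinuousAt.inv₀ (by fun_prop) (by positivity))).continuousWithinAt
  have e3 : ∫ t in d..2, g t * FEJ_F D t ≤ 4 / D * (1 / d - 1 / 2) := by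
    rw [← FEJ_side D d hd hd2]
    refine intervalIntegral.integral_mono_on hd2 (hii d 2) hci ?_
    intro t ht
    have ht0 : 0 < t := by linarith [ht.1]
    have := FEJ_bd D hD t ht0.ne' (by rw [abs_of_pos ht0]; exact ht.2)
    have h2 := FEJ_F_nn D t
    nlinarith [h1 t]
  have e1 : ∫ t in (-2 : ℝ)..(-d), g t * FEJ_F D t ≤ 4 / D * (1 / d - 1 / 2) := by
    rw [← FEJ_side D d hd hd2]
    have hs : ∫ t in (-2 : ℝ)..(-d), g t * FEJ_F D t = ∫ t in d..2, g (-t) * FEJ_F D (-t) := by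
      rw [← intervalIntegral.integral_comp_neg (fun t => g t * FEJ_F D t)]
    rw [hs]
    refine intervalIntegral.integral_mono_on hd2 ?_ hci ?_
    · have hF : IntervalIntegrable (fun t => FEJ_F D (-t)) volume d 2 := ((FEJ_F_cont D).comp continuous_neg).intervalIntegrable d 2
      refine hF.mono_fun ((hg.comp measurable_neg).mul ((FEJ_F_cont D).measurable.comp measurable_neg)).aestronglyMeasurable ?_
      refine Filter.Eventually.of_forall fun t => ?_
      have h2 := FEJ_F_nn D (-t)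
      simp only [Real.norm_eq_abs]
      rw [abs_mul, abs_of_nonneg (h0 _), abs_of_nonneg h2]
      nlinarith [h1 (-t)]
    · intro t ht
      have ht0 : 0 < t := by linarith [ht.1]
      have := FEJ_bd D hD (-t) (by linarith) (by rw [abs_neg, abs_of_pos ht0]; exact ht.2)
      rw [neg_sq] at this
      have h2 := FEJ_F_nn D (-t)
      nlinarith [h1 (-t)]
  rw [e2]
  have h8 : (8 : ℝ) / (D * d) = 2 * (4 / D * (1 / d)) := by
    field_simp
    ring
  have h9 : 0 < 4 / (D : ℝ) := by positivity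
  rw [h8]
  nlinarith

theorem FEJ_conv (u : ℝ → ℝ) (hup : ∀ t, u (t + 4) = u t) (k : ℤ) (v : ℝ) : ∫ t in (-2 : ℝ)..2, (u (v - t) : ℂ) * ee (Real.pi * k * t / 2) = (∫ w in (0 : ℝ)..(0 + 4), (u w : ℂ) * ee (-(Real.pi * k * w / 2))) * ee (Real.pi * k * v / 2) := by
  have h1 := intervalIntegral.integral_comp_sub_left (a := -2) (b := 2) (fun w : ℝ => ((u w : ℂ) * ee (-(Real.pi * k * w / 2))) * ee (Real.pi * k * v / 2)) v
  have h2 : ∀ t : ℝ, ((u (v - t) : ℂ) * ee (-(Real.pi * k * (v - t) / 2))) * ee (Real.pi * k * v / 2) = (u (v - t) : ℂ) * ee (Real.pi * k * t / 2) := by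
    intro t
    rw [mul_assoc, ← FEJ_ee_add]
    congr 2
    ring
  simp only [h2] at h1
  rw [h1, intervalIntegral.integral_mul_const]
  congr 1
  have hp : Function.Periodic (fun w : ℝ => (u w : ℂ) * ee (-(Real.pi * k * w / 2))) 4 := by
    intro w
    simp only
    rw [hup]
    congr 1
    have : -(Real.pi * k * (w + 4) / 2) = -(Real.pi * k * w / 2) + Real.pi * ((-k : ℤ) : ℝ) * 2 := by
      push_cast
      ring
    rw [this, FEJ_ee_add, FEJ_ee_int, mul_one]
  have h3 := hp.intervalIntegral_add_eq (v - 2) 0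
  rw [← h3]
  congr 1
  ring

theorem FEJ_proof : FEJ_stmt := by
  intro D G hD hG hper
  have hDr : (0 : ℝ) < D := by exact_mod_cast hD
  set u : ℝ → ℝ := G.indicator (fun _ => (1 : ℝ)) with hu
  have hum : Measurable u := measurable_const.indicator hG
  have hu0 : ∀ t, 0 ≤ u t := fun t => Set.indicator_nonneg (fun _ _ => zero_le_one) t
  have hu1 : ∀ t, u t ≤ 1 := fun t => Set.indicator_le_self' (fun _ _ => zero_le_one) t
  have hup : ∀ t, u (t + 4) = u t := by
    intro t
    by_cases h : t ∈ G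
    · rw [hu, Set.indicator_of_mem ((hper t).mpr h), Set.indicator_of_mem h]
    · rw [hu, Set.indicator_of_notMem (fun h' => h ((hper t).mp h')), Set.indicator_of_notMem h]
  set uh : ℤ → ℂ := fun j => (1 / 4) * ∫ w in (0 : ℝ)..(0 + 4), (u w : ℂ) * ee (-(Real.pi * j * w / 2)) with huh
  refine ⟨fun j => ∑ x ∈ Finset.range D ×ˢ Finset.range D with ((x.1 : ℤ) - (x.2 : ℤ)) = j, (1 / (D : ℂ)) * uh j, ?_⟩
  intro v
  refine ⟨(1 / 4) * ∫ t in (-2 : ℝ)..2, u (v - t) * FEJ_F D t, ?_, ?_, ?_, ?_⟩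
  · have hL : tp (Finset.Icc (-(D : ℤ)) D) (fun j => ∑ x ∈ Finset.range D ×ˢ Finset.range D with ((x.1 : ℤ) - (x.2 : ℤ)) = j, (1 / (D : ℂ)) * uh j) v = ∑ x ∈ Finset.range D ×ˢ Finset.range D, (1 / (D : ℂ)) * (uh ((x.1 : ℤ) - (x.2 : ℤ)) * ee (Real.pi * (((x.1 : ℤ) - (x.2 : ℤ) : ℤ) : ℝ) * v / 2)) := by
      unfold tp
      rw [← Finset.sum_fiberwise_of_maps_to (s := Finset.range D ×ˢ Finset.range D) (t := Finset.Icc (-(D : ℤ)) D) (g := fun x => (x.1 : ℤ) - (x.2 : ℤ))]
      · refine Finset.sum_congr rfl fun j _ => ?_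
        rw [Finset.sum_mul]
        refine Finset.sum_congr rfl fun x hx => ?_
        rw [Finset.mem_filter] at hx
        rw [hx.2]
        ring
      · intro x hx
        rw [Finset.mem_product, Finset.mem_range, Finset.mem_range] at hx
        rw [Finset.mem_Icc]
        omega
    rw [hL]
    rw [Complex.ofReal_mul, ← intervalIntegral.integral_ofReal]
    have h1 : ∀ t : ℝ, ((u (v - t) * FEJ_F D t : ℝ) : ℂ) = ∑ x ∈ Finset.range D ×ˢ Finset.range D, (1 / (D : ℂ)) * ((u (v - t) : ℂ) * ee (Real.pi * (((x.1 : ℤ) - (x.2 : ℤ) : ℤ) : ℝ) * t / 2)) := by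
      intro t
      rw [Complex.ofReal_mul, FEJ_exp, Finset.mul_sum]
      refine Finset.sum_congr rfl fun x _ => ?_
      ring
    simp_rw [h1]
    rw [intervalIntegral.integral_finsetSum]
    · rw [Finset.mul_sum]
      refine Finset.sum_congr rfl fun x _ => ?_
      rw [intervalIntegral.integral_const_mul, FEJ_conv u hup]
      simp only [huh]
      push_cast
      ring
    · intro x _
      have hF : IntervalIntegrable (fun _ : ℝ => (1 : ℝ)) volume (-2) 2 := intervalIntegrable_const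
      apply IntervalIntegrable.const_mul
      refine hF.mono_fun ?_ ?_
      · apply Measurable.aestronglyMeasurable
        apply Measurable.mul
        · exact Complex.measurable_ofReal.comp (hum.comp (measurable_const.sub measurable_id))
        · exact (FEJ_ee_cont.comp (by fun_prop)).measurable
      · refine Filter.Eventually.of_forall fun t => ?_
        simp only
        rw [norm_mul, FEJ_ee_norm, mul_one, Complex.norm_real, Real.norm_eq_abs, abs_of_nonneg (hu0 _), norm_one]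
        exact hu1 _
  · exact mul_nonneg (by norm_num) (intervalIntegral.integral_nonneg (by norm_num) fun t _ => mul_nonneg (hu0 _) (FEJ_F_nn D t))
  · have h1 : ∫ t in (-2 : ℝ)..2, u (v - t) * FEJ_F D t ≤ ∫ t in (-2 : ℝ)..2, FEJ_F D t := by
      refine intervalIntegral.integral_mono_on (by norm_num) (FEJ_ii D (fun t => u (v - t)) (hum.comp (measurable_const.sub measurable_id)) (fun t => hu0 _) (fun t => hu1 _) _ _) ((FEJ_F_cont D).intervalIntegrable _ _) ?_
      intro t _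
      have h2 := FEJ_F_nn D t
      nlinarith [hu1 (v - t)]
    rw [FEJ_int_F D hD] at h1
    linarith
  · intro d hd hd2
    have hq : (2 : ℝ) / (D * d) = 1 / 4 * (8 / (D * d)) := by
      field_simp
      ring
    refine ⟨fun hsub => ?_, fun hdis => ?_⟩
    · have h1 := FEJ_tail D hD (fun t => 1 - u (v - t)) (measurable_const.sub (hum.comp (measurable_const.sub measurable_id))) (fun t => by linarith [hu1 (v - t)]) (fun t => by linarith [hu0 (v - t)]) d hd hd2 (by
        intro t ht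
        rw [abs_le] at ht
        have : v - t ∈ G := hsub ⟨by linarith [ht.2], by linarith [ht.1]⟩
        simp only [hu]
        rw [Set.indicator_of_mem this]
        ring)
      have h2 : ∫ t in (-2 : ℝ)..2, (1 - u (v - t)) * FEJ_F D t = 4 - ∫ t in (-2 : ℝ)..2, u (v - t) * FEJ_F D t := by
        rw [← FEJ_int_F D hD, ← intervalIntegral.integral_sub ((FEJ_F_cont D).intervalIntegrable _ _) (FEJ_ii D (fun t => u (v - t)) (hum.comp (measurable_const.sub measurable_id)) (fun t => hu0 _) (fun t => hu1 _) _ _)]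
        refine intervalIntegral.integral_congr fun t _ => ?_
        ring
      rw [h2] at h1
      rw [hq]
      linarith
    · have h1 := FEJ_tail D hD (fun t => u (v - t)) (hum.comp (measurable_const.sub measurable_id)) (fun t => hu0 _) (fun t => hu1 _) d hd hd2 (by
        intro t ht
        rw [abs_le] at ht
        have : v - t ∉ G := fun h => (Set.disjoint_left.mp hdis) (show v - t ∈ Icc (v - d) (v + d) from ⟨by linarith [ht.2], by linarith [ht.1]⟩) h
        simp only [hu]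
        rw [Set.indicator_of_notMem this])
      rw [hq]
      linarith

end

end Pool.Agent.FS
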