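import Pool.Agent.helper78.FS.Spec

/-! # fs:CNF (MP_55808c_co): parity row of the area part (helper46) -/

namespace Pool.Agent.helper78.FS

open Finset Real
open Classical

noncomputable section

theorem CNF_perm {V : Type} [DecidableEq V] (x y w a b c : V) (hxy : x ≠ y) (hyw : y ≠ w) (hxw : x ≠ w)
    (h : ({a, b, c} : Finset V) = {x, y, w}) :
    (a = x ∧ b = y ∧ c = w) ∨ (b = x ∧ c = y ∧ a = w) ∨ (c = x ∧ a = y ∧ b = w) ∨ (b = x ∧ a = y ∧ c = w) ∨
      (a = x ∧ c = y ∧ b = w) ∨ (c = x ∧ b = y ∧ a = w) := by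
  have hx : x ∈ ({a, b, c} : Finset V) := by rw [h]; simp
  have hy : y ∈ ({a, b, c} : Finset V) := by rw [h]; simp
  have hw : w ∈ ({a, b, c} : Finset V) := by rw [h]; simp
  clear h
  simp only [Finset.mem_insert, Finset.mem_singleton] at hx hy hw
  rcases hx with hx | hx | hx <;> rcases hy with hy | hy | hy <;> rcases hw with hw | hw | hw <;>
    first
    | (exfalso; exact hxy (hx.trans hy.symm))
    | (exfalso; exact hyw (hy.trans hw.symm))
    | (exfalso; exact hxw (hx.trans hw.symm))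
    | (subst hx; subst hy; subst hw; simp)

theorem CNF_ind {V : Type} [DecidableEq V] (x y w a b c : V) (hxy : x ≠ y) (hyw : y ≠ w) (hxw : x ≠ w) :
    ((ind x y w a b c : ℤ) : ZMod 2) = if ({a, b, c} : Finset V) = {x, y, w} then 1 else 0 := by
  have hyx := hxy.symm
  have hwy := hyw.symm
  have hwx := hxw.symm
  split_ifs with h
  · rcases CNF_perm x y w a b c hxy hyw hxw h with ⟨h1, h2, h3⟩ | ⟨h1, h2, h3⟩ | ⟨h1, h2, h3⟩ | ⟨h1, h2, h3⟩ | ⟨h1, h2, h3⟩ | ⟨h1, h2, h3⟩ <;>
    · subst h1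
      subst h2
      subst h3
      simp [ind, *]
  · have n1 : ¬ (a = x ∧ b = y ∧ c = w) := by
      rintro ⟨h1, h2, h3⟩
      apply h
      rw [h1, h2, h3]
    have n2 : ¬ (b = x ∧ c = y ∧ a = w) := by
      rintro ⟨h1, h2, h3⟩
      apply h
      rw [h1, h2, h3]
      ext z
      simp only [Finset.mem_insert, Finset.mem_singleton]
      tauto
    have n3 : ¬ (c = x ∧ a = y ∧ b = w) := by
      rintro ⟨h1, h2, h3⟩
      apply h
      rw [h1, h2, h3]
      ext z
      simp only [Finset.mem_insert, Finset.mem_singleton]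
      tauto
    have n4 : ¬ (b = x ∧ a = y ∧ c = w) := by
      rintro ⟨h1, h2, h3⟩
      apply h
      rw [h1, h2, h3]
      ext z
      simp only [Finset.mem_insert, Finset.mem_singleton]
      tauto
    have n5 : ¬ (a = x ∧ c = y ∧ b = w) := by
      rintro ⟨h1, h2, h3⟩
      apply h
      rw [h1, h2, h3]
      ext z
      simp only [Finset.mem_insert, Finset.mem_singleton]
      tauto
    have n6 : ¬ (c = x ∧ b = y ∧ a = w) := by
      rintro ⟨h1, h2, h3⟩
      apply h
      rw [h1, h2, h3]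
      ext z
      simp only [Finset.mem_insert, Finset.mem_singleton]
      tauto
    unfold ind
    rw [if_neg n1, if_neg n2, if_neg n3, if_neg n4, if_neg n5, if_neg n6]
    simp

theorem CNF_sym {V : Type} [DecidableEq V] (ω : V → V → V → ZMod 2) (hω : Sym3 ω) (x y w a b c : V) (hxy : x ≠ y)
    (hyw : y ≠ w) (hxw : x ≠ w) (h : ({a, b, c} : Finset V) = {x, y, w}) : ω a b c = ω x y w := by
  obtain ⟨s1, s2, _⟩ := hω
  rcases CNF_perm x y w a b c hxy hyw hxw h with ⟨rfl, rfl, rfl⟩ | ⟨rfl, rfl, rfl⟩ | ⟨rfl, rfl, rfl⟩ | ⟨rfl, rfl, rfl⟩ | ⟨rfl, rfl, rfl⟩ | ⟨rfl, rfl, rfl⟩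
  · rfl
  · rw [s1 b a c, s2 b c a]
  · rw [s2 a c b, s1 c a b]
  · rw [s1]
  · rw [s2]
  · rw [s1 b a c, s2 b c a, s1 c b a]

theorem CNF : CNF_stmt := by
  intro V ι _ _ a b c ω hω hcnt
  rw [← Finset.sum_fiberwise_of_maps_to (s := (Finset.univ : Finset ι)) (t := Finset.univ.image (fun f => ({a f, b f, c f} : Finset V)))
    (g := fun f => ({a f, b f, c f} : Finset V)) (fun f _ => Finset.mem_image_of_mem _ (Finset.mem_univ f))]
  apply Finset.sum_eq_zero
  intro T _
  by_cases hT : ∃ f, ({a f, b f, c f} : Finset V) = T ∧ ω (a f) (b f) (c f) ≠ 0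
  · obtain ⟨f₀, hf₀, hne⟩ := hT
    obtain ⟨s1, s2, s3⟩ := hω
    have hxy : a f₀ ≠ b f₀ := by
      intro h
      apply hne
      rw [← h, s3]
    have hyw : b f₀ ≠ c f₀ := by
      intro h
      apply hne
      rw [← h, ← s1, s2, s3]
    have hxw : a f₀ ≠ c f₀ := by
      intro h
      apply hne
      rw [← h, s2, s3]
    have h1 : ∀ f ∈ (Finset.univ : Finset ι).filter (fun f => ({a f, b f, c f} : Finset V) = T),
        ω (a f) (b f) (c f) = ω (a f₀) (b f₀) (c f₀) := by
      intro f hf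
      rw [Finset.mem_filter] at hf
      exact CNF_sym ω ⟨s1, s2, s3⟩ _ _ _ _ _ _ hxy hyw hxw (hf.2.trans hf₀.symm)
    rw [Finset.sum_congr rfl h1, Finset.sum_const, nsmul_eq_mul]
    have h2 : (((Finset.univ : Finset ι).filter (fun f => ({a f, b f, c f} : Finset V) = T)).card : ZMod 2) = 0 := by
      have h3 := hcnt f₀ hne
      unfold cnt at h3
      have h4 : ((∑ f, ind (a f₀) (b f₀) (c f₀) (a f) (b f) (c f) : ℤ) : ZMod 2) = 0 := by
        rw [h3]
        simp
      rw [Int.cast_sum] at h4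
      rw [Finset.sum_congr rfl (fun f _ => CNF_ind _ _ _ (a f) (b f) (c f) hxy hyw hxw)] at h4
      rw [Finset.sum_boole] at h4
      rw [hf₀] at h4
      exact h4
    rw [h2, zero_mul]
  · push Not at hT
    apply Finset.sum_eq_zero
    intro f hf
    rw [Finset.mem_filter] at hf
    exact hT f hf.2

end

end Pool.Agent.helper78.FS
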